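import Pool.Agent.H695R3.PP.Stmts

/-!
# Eigenvector bases of finite boxes (helper100; project of helper165, statements of H695R3/PP)
-/

set_option autoImplicit false

open scoped BigOperators
open Pool.Agent.H695R3.PP

namespace Run7.h100.PP

/-- the sites of a box -/
abbrev Bx (a b : ℤ) : Type := {x : ℤ // x ∈ Finset.Icc a b}

/-- inner product on a box -/
noncomputable def ip (a b : ℤ) (f g : ℤ → ℝ) : ℝ := ∑ n ∈ Finset.Icc a b, f n * g n

/-- the operator -/
def Hop (V : ℤ → ℝ) (f : ℤ → ℝ) (n : ℤ) : ℝ := f (n + 1) + f (n - 1) + V n * f n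

lemma ip_comm (a b : ℤ) (f g : ℤ → ℝ) : ip a b f g = ip a b g f := by
  unfold ip; exact Finset.sum_congr rfl fun n _ => mul_comm _ _

lemma ip_self (a b : ℤ) (f : ℤ → ℝ) : ip a b f f = nsq a b f := by
  unfold ip nsq; exact Finset.sum_congr rfl fun n _ => by ring

lemma shift_sum (a b : ℤ) (F : ℤ → ℝ) (ha : F a = 0) (hb : F (b + 1) = 0) :
    ∑ n ∈ Finset.Icc a b, F (n + 1) = ∑ n ∈ Finset.Icc a b, F n := by
  have h1 : ∑ n ∈ Finset.Icc a b, F (n + 1) = ∑ n ∈ Finset.Icc (a + 1) (b + 1), F n := by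
    rw [← Finset.map_add_right_Icc, Finset.sum_map]
    rfl
  have h2 : ∑ n ∈ Finset.Icc (a + 1) (b + 1), F n = ∑ n ∈ Finset.Icc a (b + 1), F n := by
    apply Finset.sum_subset
    · intro n hn; rw [Finset.mem_Icc] at *; omega
    · intro n hn hn'
      rw [Finset.mem_Icc] at *
      have : n = a := by omega
      rw [this, ha]
  have h3 : ∑ n ∈ Finset.Icc a b, F n = ∑ n ∈ Finset.Icc a (b + 1), F n := by
    apply Finset.sum_subset
    · intro n hn; rw [Finset.mem_Icc] at *; omega
    · intro n hn hn'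
      rw [Finset.mem_Icc] at *
      have : n = b + 1 := by omega
      rw [this, hb]
  rw [h1, h2, h3]

/-- The operator is symmetric on functions supported in the box. -/
lemma green (V : ℤ → ℝ) (a b : ℤ) (f g : ℤ → ℝ) (hf : ∀ n, n < a ∨ b < n → f n = 0)
    (hg : ∀ n, n < a ∨ b < n → g n = 0) :
    ip a b g (Hop V f) = ip a b f (Hop V g) := by
  have e1 : ∑ n ∈ Finset.Icc a b, g n * f (n + 1) = ∑ n ∈ Finset.Icc a b, f n * g (n - 1) := by
    have := shift_sum a b (fun n => g (n - 1) * f n)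
      (by simp [hg (a - 1) (by omega)]) (by simp [hf (b + 1) (by omega)])
    simp only [add_sub_cancel_right] at this
    rw [this]
    exact Finset.sum_congr rfl fun n _ => mul_comm _ _
  have e2 : ∑ n ∈ Finset.Icc a b, f n * g (n + 1) = ∑ n ∈ Finset.Icc a b, g n * f (n - 1) := by
    have := shift_sum a b (fun n => f (n - 1) * g n)
      (by simp [hf (a - 1) (by omega)]) (by simp [hg (b + 1) (by omega)])
    simp only [add_sub_cancel_right] at this
    rw [this]
    exact Finset.sum_congr rfl fun n _ => mul_comm _ _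
  have l1 : ip a b g (Hop V f) = ∑ n ∈ Finset.Icc a b, g n * f (n + 1) +
      ∑ n ∈ Finset.Icc a b, g n * f (n - 1) + ∑ n ∈ Finset.Icc a b, V n * (f n * g n) := by
    unfold ip Hop
    rw [← Finset.sum_add_distrib, ← Finset.sum_add_distrib]
    exact Finset.sum_congr rfl fun n _ => by ring
  have l2 : ip a b f (Hop V g) = ∑ n ∈ Finset.Icc a b, f n * g (n + 1) +
      ∑ n ∈ Finset.Icc a b, f n * g (n - 1) + ∑ n ∈ Finset.Icc a b, V n * (f n * g n) := by
    unfold ip Hop
    rw [← Finset.sum_add_distrib, ← Finset.sum_add_distrib]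
    exact Finset.sum_congr rfl fun n _ => by ring
  rw [l1, l2, e1, e2]; ring

/-- Orthogonality of eigenvectors for different eigenvalues. -/
lemma orth {V : ℤ → ℝ} {a b : ℤ} {E E' : ℝ} {f g : ℤ → ℝ} (hf : IsEig V a b E f)
    (hg : IsEig V a b E' g) (h : E ≠ E') : ip a b f g = 0 := by
  have h1 := green V a b f g hf.1 hg.1
  have h2 : ip a b g (Hop V f) = E * ip a b f g := by
    unfold ip
    rw [Finset.mul_sum]
    refine Finset.sum_congr rfl fun n hn => ?_
    rw [Finset.mem_Icc] at hn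
    have := hf.2.2 n hn.1 hn.2
    unfold Hop; rw [this]; ring
  have h3 : ip a b f (Hop V g) = E' * ip a b f g := by
    unfold ip
    rw [Finset.mul_sum]
    refine Finset.sum_congr rfl fun n hn => ?_
    rw [Finset.mem_Icc] at hn
    have := hg.2.2 n hn.1 hn.2
    unfold Hop; rw [this]; ring
  rw [h2, h3] at h1
  have : (E - E') * ip a b f g = 0 := by linarith
  rcases mul_eq_zero.1 this with h' | h'
  · exact absurd (sub_eq_zero.1 h') h
  · exact h'

/-- extension by zero -/
noncomputable def ext0 (a b : ℤ) (g : Bx a b → ℝ) (n : ℤ) : ℝ :=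
  if h : n ∈ Finset.Icc a b then g ⟨n, h⟩ else 0

lemma ext0_coe (a b : ℤ) (g : Bx a b → ℝ) (i : Bx a b) :
    ext0 a b g i = g i := by
  unfold ext0; rw [dif_pos i.2]

lemma ext0_supp (a b : ℤ) (g : Bx a b → ℝ) (n : ℤ) (h : n < a ∨ b < n) :
    ext0 a b g n = 0 := by
  unfold ext0; rw [dif_neg]; rw [Finset.mem_Icc]; omega

lemma sum_ite_ext0 (a b k : ℤ) (c : ℝ) (g : Bx a b → ℝ) :
    ∑ j : Bx a b, (if (j : ℤ) = k then c else 0) * g j = c * ext0 a b g k := by
  by_cases h : k ∈ Finset.Icc a b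
  · rw [Finset.sum_eq_single (⟨k, h⟩ : Bx a b)]
    · unfold ext0; rw [dif_pos h, if_pos rfl]
    · intro j _ hj
      rw [if_neg, zero_mul]
      intro h'
      exact hj (Subtype.ext h')
    · intro h'; exact absurd (Finset.mem_univ _) h'
  · unfold ext0
    rw [dif_neg h, mul_zero]
    refine Finset.sum_eq_zero fun j _ => ?_
    rw [if_neg, zero_mul]
    intro h'
    exact h (h' ▸ j.2)

/-- the Jacobi matrix of the box -/
noncomputable def jac (V : ℤ → ℝ) (a b : ℤ) :
    Matrix (Bx a b) (Bx a b) ℝ :=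
  Matrix.of fun i j => (if (j : ℤ) = i + 1 then 1 else 0) + (if (j : ℤ) = i - 1 then 1 else 0) +
    (if (j : ℤ) = i then V i else 0)

lemma jac_herm (V : ℤ → ℝ) (a b : ℤ) : (jac V a b).IsHermitian := by
  ext i j
  simp only [jac, Matrix.conjTranspose_apply, Matrix.of_apply, star_trivial]
  have e1 : ((i : ℤ) = j + 1) = ((j : ℤ) = i - 1) := propext ⟨fun h => by omega, fun h => by omega⟩
  have e2 : ((i : ℤ) = j - 1) = ((j : ℤ) = i + 1) := propext ⟨fun h => by omega, fun h => by omega⟩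
  simp only [e1, e2]
  by_cases h : (i : ℤ) = j
  · have : i = j := Subtype.ext h
    subst this
    ring
  · rw [if_neg h, if_neg (fun h' : (j : ℤ) = i => h h'.symm)]; ring

lemma jac_mulVec (V : ℤ → ℝ) (a b : ℤ) (g : Bx a b → ℝ)
    (i : Bx a b) :
    (Matrix.mulVec (jac V a b) g) i = Hop V (ext0 a b g) i := by
  unfold Matrix.mulVec dotProduct jac Hop
  simp only [Matrix.of_apply, add_mul, Finset.sum_add_distrib]
  rw [sum_ite_ext0, sum_ite_ext0, sum_ite_ext0]
  ring

/-- **Eigenvector basis of a box.** -/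
theorem basis (V : ℤ → ℝ) (a b : ℤ) :
    ∃ (e : Bx a b → ℝ) (ψ : Bx a b → ℤ → ℝ),
      (∀ j, IsEig V a b (e j) (ψ j)) ∧
      (∀ j k, ip a b (ψ j) (ψ k) = if j = k then 1 else 0) ∧
      ∀ f : ℤ → ℝ, (∀ n, n < a ∨ b < n → f n = 0) → ∀ n, f n = ∑ j, ip a b (ψ j) f * ψ j n := by
  classical
  set hA := jac_herm V a b
  set B := hA.eigenvectorBasis
  have hip : ∀ f g : ℤ → ℝ, ip a b f g = ∑ i : Bx a b, f i * g i := by
    intro f g
    unfold ip
    rw [← Finset.sum_coe_sort (Finset.Icc a b) (fun n => f n * g n)]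
  have hin : ∀ x y : EuclideanSpace ℝ (Bx a b),
      inner ℝ x y = ∑ i, x i * y i := by
    intro x y
    rw [PiLp.inner_apply]
    refine Finset.sum_congr rfl fun i _ => ?_
    simp [mul_comm]
  have horth : ∀ j k, ip a b (ext0 a b (B j)) (ext0 a b (B k)) = if j = k then 1 else 0 := by
    intro j k
    rw [hip]
    have : ∑ i : Bx a b, ext0 a b (B j) i * ext0 a b (B k) i =
        inner ℝ (B j) (B k) := by
      rw [hin]
      exact Finset.sum_congr rfl fun i _ => by rw [ext0_coe, ext0_coe]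
    rw [this]
    exact orthonormal_iff_ite.1 B.orthonormal j k
  refine ⟨hA.eigenvalues, fun j => ext0 a b (B j), fun j => ⟨ext0_supp a b _, ?_, ?_⟩, horth, ?_⟩
  · rw [← ip_self, horth, if_pos rfl]
  · intro n h1 h2
    have hn : n ∈ Finset.Icc a b := Finset.mem_Icc.2 ⟨h1, h2⟩
    have h := congrFun (hA.mulVec_eigenvectorBasis j) ⟨n, hn⟩
    rw [jac_mulVec] at h
    change ext0 a b (B j) (n + 1) + ext0 a b (B j) (n - 1) + V n * ext0 a b (B j) n = _ at h
    rw [h]
    have : ext0 a b (B j) n = B j ⟨n, hn⟩ := by unfold ext0; rw [dif_pos hn]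
    beta_reduce
    rw [this]
    rfl
  · intro f hf n
    by_cases hn : n ∈ Finset.Icc a b
    · have h := B.sum_repr' (WithLp.toLp 2 fun i : Bx a b => f i)
      have h' := congrArg (fun x : EuclideanSpace ℝ (Bx a b) => x ⟨n, hn⟩) h
      simp only [WithLp.ofLp_sum, WithLp.ofLp_smul, Finset.sum_apply, Pi.smul_apply,
        smul_eq_mul] at h'
      rw [← h']
      refine Finset.sum_congr rfl fun j _ => ?_
      have e1 : ext0 a b (B j) n = B j ⟨n, hn⟩ := by unfold ext0; rw [dif_pos hn]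
      beta_reduce
      rw [e1, hip, hin]
      congr 1
      exact Finset.sum_congr rfl fun i _ => by rw [ext0_coe]
    · rw [Finset.mem_Icc] at hn
      rw [hf n (by omega)]
      symm
      refine Finset.sum_eq_zero fun j _ => ?_
      beta_reduce
      rw [ext0_supp a b _ n (by omega), mul_zero]

end Run7.h100.PP
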