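import Pool.Agent.Run7.h100.PP.Basis

/-!
# Approximate eigenvectors, counting, completeness, splitting and one step (helper100)
-/

set_option autoImplicit false

open scoped BigOperators
open Pool.Agent.H695R3.PP

namespace Run7.h100.PP

section
variable {ι : Type} [Fintype ι] [DecidableEq ι]

lemma nsq_comb {a b : ℤ} {ψ : ι → ℤ → ℝ}
    (h : ∀ j k, ip a b (ψ j) (ψ k) = if j = k then 1 else 0) (c : ι → ℝ) :
    ∑ n ∈ Finset.Icc a b, (∑ j, c j * ψ j n) ^ 2 = ∑ j, c j ^ 2 := by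
  have e : ∀ n, (∑ j, c j * ψ j n) ^ 2 = ∑ j, ∑ k, c j * c k * (ψ j n * ψ k n) := by
    intro n
    rw [sq, Finset.sum_mul_sum]
    refine Finset.sum_congr rfl fun j _ => Finset.sum_congr rfl fun k _ => ?_
    ring
  simp only [e]
  rw [Finset.sum_comm]
  refine Finset.sum_congr rfl fun j _ => ?_
  rw [Finset.sum_comm]
  have : ∀ k, ∑ n ∈ Finset.Icc a b, c j * c k * (ψ j n * ψ k n) =
      c j * c k * (if j = k then 1 else 0) := by
    intro k
    rw [← h j k, ip, Finset.mul_sum]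
  simp only [this]
  simp [sq]

end

lemma basis_parseval {a b : ℤ} {ψ : Bx a b → ℤ → ℝ}
    (h : ∀ j k, ip a b (ψ j) (ψ k) = if j = k then 1 else 0)
    (hc : ∀ f : ℤ → ℝ, (∀ n, n < a ∨ b < n → f n = 0) → ∀ n, f n = ∑ j, ip a b (ψ j) f * ψ j n)
    {f : ℤ → ℝ} (hf : ∀ n, n < a ∨ b < n → f n = 0) :
    nsq a b f = ∑ j, ip a b (ψ j) f ^ 2 := by
  classical
  rw [← nsq_comb h]
  unfold nsq
  exact Finset.sum_congr rfl fun n _ => by rw [hc f hf n]

lemma resid {V : ℤ → ℝ} {a b : ℤ} {e : Bx a b → ℝ} {ψ : Bx a b → ℤ → ℝ}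
    (he : ∀ j, IsEig V a b (e j) (ψ j))
    (h : ∀ j k, ip a b (ψ j) (ψ k) = if j = k then 1 else 0)
    (hc : ∀ f : ℤ → ℝ, (∀ n, n < a ∨ b < n → f n = 0) → ∀ n, f n = ∑ j, ip a b (ψ j) f * ψ j n)
    {f : ℤ → ℝ} (hf : ∀ n, n < a ∨ b < n → f n = 0) (E : ℝ) :
    ∑ n ∈ Finset.Icc a b, (f (n + 1) + f (n - 1) + V n * f n - E * f n) ^ 2 =
      ∑ j, (e j - E) ^ 2 * ip a b (ψ j) f ^ 2 := by
  classical
  set r : ℤ → ℝ := fun n => if n ∈ Finset.Icc a b then Hop V f n - E * f n else 0 with hr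
  have hrs : ∀ n, n < a ∨ b < n → r n = 0 := by
    intro n hn
    rw [hr]; simp only
    rw [if_neg]; rw [Finset.mem_Icc]; omega
  have e1 : ∑ n ∈ Finset.Icc a b, (f (n + 1) + f (n - 1) + V n * f n - E * f n) ^ 2 =
      nsq a b r := by
    unfold nsq
    refine Finset.sum_congr rfl fun n hn => ?_
    rw [hr]; simp only
    rw [if_pos hn]; rfl
  rw [e1, basis_parseval h hc hrs]
  refine Finset.sum_congr rfl fun j _ => ?_
  have e2 : ip a b (ψ j) r = ip a b (ψ j) (Hop V f) - E * ip a b (ψ j) f := by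
    unfold ip
    rw [Finset.mul_sum, ← Finset.sum_sub_distrib]
    refine Finset.sum_congr rfl fun n hn => ?_
    rw [hr]; simp only
    rw [if_pos hn]; ring
  have e3 : ip a b (ψ j) (Hop V f) = e j * ip a b (ψ j) f := by
    rw [green V a b f (ψ j) hf (he j).1, ip_comm a b (ψ j) f]
    unfold ip
    rw [Finset.mul_sum]
    refine Finset.sum_congr rfl fun n hn => ?_
    rw [Finset.mem_Icc] at hn
    have := (he j).2.2 n hn.1 hn.2
    unfold Hop
    rw [this]; ring
  rw [e2, e3]; ring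

/-- Approximate eigenvectors give eigenvalues. -/
theorem taskApprox : TaskApprox := by
  intro V a b E δ f hδ hf hpos hle
  obtain ⟨e, ψ, he, ho, hc⟩ := basis V a b
  rw [resid he ho hc hf, basis_parseval ho hc hf] at hle
  rw [basis_parseval ho hc hf] at hpos
  by_contra hcon
  push Not at hcon
  have hj : ∀ j, δ < |e j - E| := fun j => hcon (e j) (ψ j) (he j)
  have h1 : ∀ j, δ ^ 2 * ip a b (ψ j) f ^ 2 ≤ (e j - E) ^ 2 * ip a b (ψ j) f ^ 2 := by
    intro j
    refine mul_le_mul_of_nonneg_right ?_ (sq_nonneg _)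
    rw [← sq_abs (e j - E)]
    exact pow_le_pow_left₀ hδ (hj j).le 2
  obtain ⟨j, _, hj0⟩ : ∃ j ∈ Finset.univ, 0 < ip a b (ψ j) f ^ 2 := by
    by_contra h
    push Not at h
    exact absurd (Finset.sum_nonpos h) (not_le.2 hpos)
  have h2 : ∑ j, δ ^ 2 * ip a b (ψ j) f ^ 2 < ∑ j, (e j - E) ^ 2 * ip a b (ψ j) f ^ 2 := by
    refine Finset.sum_lt_sum (fun j _ => h1 j) ⟨j, Finset.mem_univ j, ?_⟩
    refine mul_lt_mul_of_pos_right ?_ hj0
    rw [← sq_abs (e j - E)]
    exact pow_lt_pow_left₀ (hj j) hδ (by norm_num)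
  rw [← Finset.mul_sum] at h2
  exact absurd hle (not_le.2 h2)

/-- The eigenvalues of a box are finitely many. -/
theorem taskCard : TaskCard := by
  classical
  intro V a b hab
  obtain ⟨e, ψ, he, ho, hc⟩ := basis V a b
  refine ⟨Finset.univ.image e, ?_, ?_⟩
  · have h1 : (Finset.univ.image e).card ≤ Fintype.card (Bx a b) := by
      refine le_trans Finset.card_image_le ?_
      rw [Finset.card_univ]
    have h2 : Fintype.card (Bx a b) = (b + 1 - a).toNat := by
      rw [Fintype.card_coe, Int.card_Icc]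
    rw [h2] at h1
    omega
  · intro E φ hφ
    have h1 : nsq a b φ = ∑ j, ip a b (ψ j) φ ^ 2 := basis_parseval ho hc hφ.1
    by_contra hE
    have h2 : ∀ j, ip a b (ψ j) φ = 0 := by
      intro j
      refine orth (he j) hφ ?_
      intro h
      exact hE (Finset.mem_image.2 ⟨j, Finset.mem_univ j, h⟩)
    rw [hφ.2.1] at h1
    simp only [h2] at h1
    norm_num at h1

/-- Completeness. -/
theorem taskCompl : TaskCompl := by
  classical
  intro V L
  obtain ⟨e, ψ, he, ho, hc⟩ := basis V (-(L : ℤ)) L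
  have hcard : Fintype.card (Fin (2 * L + 1)) = Fintype.card (Bx (-(L : ℤ)) L) := by
    rw [Fintype.card_fin, Fintype.card_coe, Int.card_Icc]; omega
  let σ : Fin (2 * L + 1) ≃ Bx (-(L : ℤ)) L := Fintype.equivOfCardEq hcard
  refine ⟨fun j => e (σ j), fun j => ψ (σ j), fun j => he (σ j), ?_, ?_⟩
  · intro n
    set f : ℤ → ℝ := fun n => if n = 0 then 1 else 0 with hfd
    have hf : ∀ n, n < -(L : ℤ) ∨ (L : ℤ) < n → f n = 0 := by
      intro n hn
      rw [hfd]; simp only
      rw [if_neg]; omega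
    have h := hc f hf n
    have e1 : ∀ j, ip (-(L : ℤ)) L (ψ j) f = ψ j 0 := by
      intro j
      unfold ip
      rw [Finset.sum_eq_single 0]
      · rw [hfd]; simp
      · intro m _ hm
        rw [hfd]; simp [hm]
      · intro h'
        exfalso; apply h'; rw [Finset.mem_Icc]; omega
    change f n = _
    rw [h]
    simp only [e1]
    exact (Equiv.sum_comp σ (fun j => ψ j 0 * ψ j n)).symm
  · intro c
    refine nsq_comb (ψ := fun j => ψ (σ j)) ?_ c
    intro j k
    rw [ho]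
    by_cases h : j = k
    · rw [h, if_pos rfl, if_pos rfl]
    · rw [if_neg h, if_neg (fun h' => h (σ.injective h'))]

end Run7.h100.PP
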