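import Pool.Agent.Run7.h100.PP.Lin

/-!
# Splitting a box with two close eigenvalues (helper100)
-/

set_option autoImplicit false

open scoped BigOperators
open Pool.Agent.H695R3.PP

namespace Run7.h100.PP

lemma exists_unit (x y : ℝ) : ∃ α β : ℝ, α ^ 2 + β ^ 2 = 1 ∧ α * x + β * y = 0 := by
  by_cases h : x ^ 2 + y ^ 2 = 0
  · have hx : x = 0 := by nlinarith [sq_nonneg x, sq_nonneg y]
    have hy : y = 0 := by nlinarith [sq_nonneg x, sq_nonneg y]
    exact ⟨1, 0, by norm_num, by rw [hx, hy]; norm_num⟩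
  · have hpos : 0 < x ^ 2 + y ^ 2 := lt_of_le_of_ne (by positivity) (Ne.symm h)
    have hs : Real.sqrt (x ^ 2 + y ^ 2) ^ 2 = x ^ 2 + y ^ 2 := Real.sq_sqrt hpos.le
    have hs0 : Real.sqrt (x ^ 2 + y ^ 2) ≠ 0 := (Real.sqrt_pos.2 hpos).ne'
    refine ⟨y / Real.sqrt (x ^ 2 + y ^ 2), -x / Real.sqrt (x ^ 2 + y ^ 2), ?_, ?_⟩
    · rw [div_pow, div_pow, hs]
      field_simp
      ring
    · field_simp
      ring

lemma nsq_nonneg (a b : ℤ) (f : ℤ → ℝ) : 0 ≤ nsq a b f :=
  Finset.sum_nonneg fun _ _ => sq_nonneg _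

lemma nsq_mono {a b p q : ℤ} (hp : a ≤ p) (hq : q ≤ b) (f : ℤ → ℝ) : nsq p q f ≤ nsq a b f := by
  unfold nsq
  refine Finset.sum_le_sum_of_subset_of_nonneg ?_ fun _ _ _ => sq_nonneg _
  intro n hn; rw [Finset.mem_Icc] at *; omega

lemma cut {V : ℤ → ℝ} {a b : ℤ} {E E' d : ℝ} {ψ ψ' : ℤ → ℝ} (h1 : IsEig V a b E ψ)
    (h2 : IsEig V a b E' ψ') (hd : |E - E'| ≤ d) {α β : ℝ} (hu : α ^ 2 + β ^ 2 = 1) {p q : ℤ}
    (hp : a ≤ p) (hq : q ≤ b) (hl : α * ψ (p - 1) + β * ψ' (p - 1) = 0)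
    (hr : α * ψ (q + 1) + β * ψ' (q + 1) = 0)
    (hn : 1 / 2 ≤ nsq p q (fun n => α * ψ n + β * ψ' n)) :
    ∃ lam φ, IsEig V p q lam φ ∧ |lam - E| ≤ Real.sqrt 2 * d := by
  have hd0 : 0 ≤ d := le_trans (abs_nonneg _) hd
  set F : ℤ → ℝ := fun n => α * ψ n + β * ψ' n with hF
  set g : ℤ → ℝ := fun n => if n ∈ Finset.Icc p q then F n else 0 with hg
  have hgs : ∀ n, n < p ∨ q < n → g n = 0 := by
    intro n hn
    rw [hg]; simp only
    rw [if_neg]; rw [Finset.mem_Icc]; omega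
  have hgn : nsq p q g = nsq p q F := by
    unfold nsq
    refine Finset.sum_congr rfl fun n hn => ?_
    rw [hg]; simp only; rw [if_pos hn]
  have hg1 : ∀ n, p - 1 ≤ n → n ≤ q + 1 → g n = F n := by
    intro n hn1 hn2
    rcases eq_or_ne n (p - 1) with h | h
    · rw [hgs n (by omega), h]; exact hl.symm
    · rcases eq_or_ne n (q + 1) with h' | h'
      · rw [hgs n (by omega), h']; exact hr.symm
      · rw [hg]; simp only; rw [if_pos]; rw [Finset.mem_Icc]; omega
  have hres : ∑ n ∈ Finset.Icc p q, (g (n + 1) + g (n - 1) + V n * g n - E * g n) ^ 2 =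
      (β * (E' - E)) ^ 2 * nsq p q ψ' := by
    unfold nsq
    rw [Finset.mul_sum]
    refine Finset.sum_congr rfl fun n hn => ?_
    rw [Finset.mem_Icc] at hn
    rw [hg1 (n + 1) (by omega) (by omega), hg1 (n - 1) (by omega) (by omega),
      hg1 n (by omega) (by omega), ← mul_pow]
    congr 1
    have e1 := h1.2.2 n (by omega) (by omega)
    have e2 := h2.2.2 n (by omega) (by omega)
    rw [hF]
    linear_combination α * e1 + β * e2
  refine taskApprox V p q E (Real.sqrt 2 * d) g (by positivity) hgs (by rw [hgn]; linarith) ?_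
  rw [hres, hgn, mul_pow, mul_pow, Real.sq_sqrt (by norm_num)]
  have hβ : β ^ 2 ≤ 1 := by nlinarith [sq_nonneg α]
  have hE : (E' - E) ^ 2 ≤ d ^ 2 := by
    rw [← sq_abs (E' - E), abs_sub_comm]
    exact pow_le_pow_left₀ (abs_nonneg _) hd 2
  have hn2 : nsq p q ψ' ≤ 1 := by
    have := nsq_mono hp hq ψ'
    rw [h2.2.1] at this
    exact this
  have hn0 := nsq_nonneg p q ψ'
  calc β ^ 2 * (E' - E) ^ 2 * nsq p q ψ' ≤ 1 * d ^ 2 * 1 := by
        refine mul_le_mul (mul_le_mul hβ hE (sq_nonneg _) (by norm_num)) hn2 hn0 (by positivity)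
    _ ≤ 2 * d ^ 2 * nsq p q F := by nlinarith [sq_nonneg d]

/-- Two close eigenvalues of a box give close eigenvalues of two complementary boxes. -/
theorem taskSplit : TaskSplit := by
  classical
  intro V a b E E' d ψ ψ' hab h1 h2 hne hd
  have hd0 : 0 ≤ d := le_trans (abs_nonneg _) hd
  choose α β hu h0 using fun m => exists_unit (ψ m) (ψ' m)
  have hor : ip a b ψ ψ' = 0 := orth h1 h2 hne
  have hN : ∀ m, nsq a b (fun n => α m * ψ n + β m * ψ' n) = 1 := by
    intro m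
    have : nsq a b (fun n => α m * ψ n + β m * ψ' n) =
        α m ^ 2 * nsq a b ψ + 2 * α m * β m * ip a b ψ ψ' + β m ^ 2 * nsq a b ψ' := by
      unfold nsq ip
      rw [Finset.mul_sum, Finset.mul_sum, Finset.mul_sum, ← Finset.sum_add_distrib,
        ← Finset.sum_add_distrib]
      exact Finset.sum_congr rfl fun n _ => by ring
    rw [this, hor, h1.2.1, h2.2.1, mul_zero, add_zero, mul_one, mul_one, hu]
  have hLR : ∀ m, a ≤ m → m ≤ b → nsq a (m - 1) (fun n => α m * ψ n + β m * ψ' n) +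
      nsq (m + 1) b (fun n => α m * ψ n + β m * ψ' n) = 1 := by
    intro m hm1 hm2
    rw [← hN m]
    unfold nsq
    have hdis : Disjoint (Finset.Icc a (m - 1)) (Finset.Icc (m + 1) b) := by
      rw [Finset.disjoint_left]; intro n; rw [Finset.mem_Icc, Finset.mem_Icc]; omega
    rw [← Finset.sum_union hdis]
    apply Finset.sum_subset
    · intro n; rw [Finset.mem_union, Finset.mem_Icc, Finset.mem_Icc, Finset.mem_Icc]; omega
    · intro n hn hn'
      rw [Finset.mem_union, Finset.mem_Icc, Finset.mem_Icc] at hn'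
      rw [Finset.mem_Icc] at hn
      have : n = m := by omega
      rw [this]; beta_reduce; rw [h0 m]; norm_num
  set S : Finset ℤ := (Finset.Icc a b).filter
    (fun m => 1 / 2 ≤ nsq a (m - 1) (fun n => α m * ψ n + β m * ψ' n)) with hS
  have hbS : b ∈ S := by
    rw [hS, Finset.mem_filter, Finset.mem_Icc]
    refine ⟨⟨hab, le_rfl⟩, ?_⟩
    have h := hLR b hab le_rfl
    have : nsq (b + 1) b (fun n => α b * ψ n + β b * ψ' n) = 0 := by
      unfold nsq; rw [Finset.Icc_eq_empty (by omega), Finset.sum_empty]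
    rw [this] at h; linarith
  have hSne : S.Nonempty := ⟨b, hbS⟩
  set m := S.min' hSne with hm
  have hmS : m ∈ S := Finset.min'_mem S hSne
  rw [hS, Finset.mem_filter, Finset.mem_Icc] at hmS
  obtain ⟨⟨hma, hmb⟩, hmL⟩ := hmS
  have hma' : a < m := by
    rcases lt_or_eq_of_le hma with h | h
    · exact h
    · exfalso
      rw [← h] at hmL
      have : nsq a (a - 1) (fun n => α a * ψ n + β a * ψ' n) = 0 := by
        unfold nsq; rw [Finset.Icc_eq_empty (by omega), Finset.sum_empty]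
      rw [this] at hmL; norm_num at hmL
  have hR : 1 / 2 ≤ nsq m b (fun n => α (m - 1) * ψ n + β (m - 1) * ψ' n) := by
    have hnot : m - 1 ∉ S := fun h => by
      have := Finset.min'_le S _ h
      omega
    have hlt : nsq a (m - 1 - 1) (fun n => α (m - 1) * ψ n + β (m - 1) * ψ' n) < 1 / 2 := by
      by_contra hc
      push Not at hc
      apply hnot
      rw [hS, Finset.mem_filter, Finset.mem_Icc]
      exact ⟨⟨by omega, by omega⟩, hc⟩
    have h := hLR (m - 1) (by omega) (by omega)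
    rw [sub_add_cancel] at h
    linarith
  obtain ⟨lam, φ, hφ, hlam⟩ := cut h1 h2 hd (hu m) (p := a) (q := m - 1) le_rfl (by omega)
    (by rw [h1.1 (a - 1) (by omega), h2.1 (a - 1) (by omega)]; ring)
    (by rw [sub_add_cancel]; exact h0 m) hmL
  obtain ⟨lam', φ', hφ', hlam'⟩ := cut h1 h2 hd (hu (m - 1)) (p := m) (q := b) hma le_rfl
    (h0 (m - 1))
    (by rw [h1.1 (b + 1) (by omega), h2.1 (b + 1) (by omega)]; ring) hR
  refine ⟨m, hma', hmb, lam, φ, lam', φ', hφ, hφ', ?_⟩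
  have hs2 : Real.sqrt 2 ≤ 3 / 2 := by
    rw [show (3 / 2 : ℝ) = Real.sqrt ((3 / 2) ^ 2) by rw [Real.sqrt_sq (by norm_num)]]
    exact Real.sqrt_le_sqrt (by norm_num)
  have : |lam - lam'| ≤ |lam - E| + |lam' - E| := by
    have := abs_sub_le lam E lam'
    rw [abs_sub_comm E lam'] at this
    exact this
  nlinarith

/-- An eigenvector does not vanish at the left end. -/
lemma left_ne_zero {V : ℤ → ℝ} {a b : ℤ} {E : ℝ} {g : ℤ → ℝ} (hs : ∀ n, n < a ∨ b < n → g n = 0)
    (he : ∀ n, a ≤ n → n ≤ b → g (n + 1) + g (n - 1) + V n * g n = E * g n) (h0 : g a = 0) :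
    ∀ n, g n = 0 := by
  have key : ∀ k : ℕ, a + k ≤ b + 1 → g (a + k) = 0 ∧ g (a + k - 1) = 0 := by
    intro k
    induction k with
    | zero =>
      intro _
      simp only [Nat.cast_zero, add_zero]
      exact ⟨h0, hs _ (by omega)⟩
    | succ k ih =>
      intro hk
      push_cast at hk
      obtain ⟨i1, i2⟩ := ih (by omega)
      have h := he (a + k) (by omega) (by omega)
      push_cast
      rw [i1, i2] at h
      refine ⟨?_, ?_⟩
      · rw [← add_assoc]
        linarith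
      · rw [show a + ((k : ℤ) + 1) - 1 = a + k by ring]; exact i1
  intro n
  by_cases h : a ≤ n ∧ n ≤ b
  · obtain ⟨k, hk⟩ := Int.eq_ofNat_of_zero_le (by omega : 0 ≤ n - a)
    have := (key k (by omega)).1
    rw [show n = a + k by omega]
    exact this
  · exact hs n (by omega)

/-- Orthogonal eigenvectors have different eigenvalues. -/
lemma simple {V : ℤ → ℝ} {a b : ℤ} {E E' : ℝ} {ψ ψ' : ℤ → ℝ} (h1 : IsEig V a b E ψ)
    (h2 : IsEig V a b E' ψ') (ho : ip a b ψ ψ' = 0) : E ≠ E' := by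
  intro hE
  subst hE
  have hz : ∀ n, ψ' a * ψ n - ψ a * ψ' n = 0 := by
    apply left_ne_zero (V := V) (a := a) (b := b) (E := E) (g := fun n => ψ' a * ψ n - ψ a * ψ' n)
    · intro n hn
      rw [h1.1 n hn, h2.1 n hn]; ring
    · intro n hn1 hn2
      have e1 := h1.2.2 n hn1 hn2
      have e2 := h2.2.2 n hn1 hn2
      linear_combination ψ' a * e1 - ψ a * e2
    · ring
  have hs : ψ' a ^ 2 * nsq a b ψ - 2 * ψ' a * ψ a * ip a b ψ ψ' + ψ a ^ 2 * nsq a b ψ' = 0 := by
    have : ψ' a ^ 2 * nsq a b ψ - 2 * ψ' a * ψ a * ip a b ψ ψ' + ψ a ^ 2 * nsq a b ψ' =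
        ∑ n ∈ Finset.Icc a b, (ψ' a * ψ n - ψ a * ψ' n) ^ 2 := by
      unfold nsq ip
      rw [Finset.mul_sum, Finset.mul_sum, Finset.mul_sum, ← Finset.sum_sub_distrib,
        ← Finset.sum_add_distrib]
      exact Finset.sum_congr rfl fun n _ => by ring
    rw [this]
    exact Finset.sum_eq_zero fun n _ => by rw [hz n]; norm_num
  rw [ho, h1.2.1, h2.2.1] at hs
  have ha : ψ a = 0 := by nlinarith [sq_nonneg (ψ a), sq_nonneg (ψ' a)]
  have hψ := left_ne_zero h1.1 h1.2.2 ha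
  have := h1.2.1
  unfold nsq at this
  rw [Finset.sum_eq_zero (fun n _ => by rw [hψ n]; norm_num)] at this
  norm_num at this

end Run7.h100.PP
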