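import Pool.Agent.Run7.h100.PP.Split

/-!
# One step from a box to a larger box (helper100)
-/

set_option autoImplicit false

open scoped BigOperators
open Pool.Agent.H695R3.PP

namespace Run7.h100.PP

theorem taskStep : TaskStep := by
  classical
  intro V L L' E τ d ψ hLL hτ hd hB hψ hR hL
  obtain ⟨e, φ, he, ho, hc⟩ := basis V (-(L' : ℤ)) L'
  have hLL' : (L : ℤ) < L' := by exact_mod_cast hLL
  have hsup : ∀ n, n < -(L' : ℤ) ∨ (L' : ℤ) < n → ψ n = 0 := fun n hn => hψ.1 n (by omega)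
  have hd0 : 0 < d := by linarith
  -- the residual
  have hres : ∑ n ∈ Finset.Icc (-(L' : ℤ)) L',
      (ψ (n + 1) + ψ (n - 1) + V n * ψ n - E * ψ n) ^ 2 = ψ L ^ 2 + ψ (-(L : ℤ)) ^ 2 := by
    have hsub : ({(L : ℤ) + 1, -(L : ℤ) - 1} : Finset ℤ) ⊆ Finset.Icc (-(L' : ℤ)) L' := by
      intro n hn
      rw [Finset.mem_insert, Finset.mem_singleton] at hn
      rw [Finset.mem_Icc]; omega
    rw [← Finset.sum_subset hsub]
    · rw [Finset.sum_pair (by omega)]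
      rw [hψ.1 ((L : ℤ) + 1 + 1) (by omega), hψ.1 ((L : ℤ) + 1) (by omega),
        hψ.1 (-(L : ℤ) - 1 - 1) (by omega), hψ.1 (-(L : ℤ) - 1) (by omega),
        add_sub_cancel_right, sub_add_cancel]
      ring
    · intro n hn hn'
      rw [Finset.mem_insert, Finset.mem_singleton] at hn'
      rw [Finset.mem_Icc] at hn
      by_cases h : -(L : ℤ) ≤ n ∧ n ≤ L
      · rw [hψ.2.2 n h.1 h.2]; ring
      · rw [hψ.1 (n + 1) (by omega), hψ.1 (n - 1) (by omega), hψ.1 n (by omega)]; ring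
  have hresle : ψ L ^ 2 + ψ (-(L : ℤ)) ^ 2 ≤ 2 * τ ^ 2 := by
    have h1 : ψ L ^ 2 ≤ τ ^ 2 := by
      rw [← sq_abs]; exact pow_le_pow_left₀ (abs_nonneg _) hR 2
    have h2 : ψ (-(L : ℤ)) ^ 2 ≤ τ ^ 2 := by
      rw [← sq_abs]; exact pow_le_pow_left₀ (abs_nonneg _) hL 2
    linarith
  have hnorm : nsq (-(L' : ℤ)) L' ψ = 1 := by
    rw [← hψ.2.1]
    unfold nsq
    symm
    apply Finset.sum_subset
    · intro n; rw [Finset.mem_Icc, Finset.mem_Icc]; omega
    · intro n _ hn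
      rw [Finset.mem_Icc] at hn
      rw [hψ.1 n (by omega)]; norm_num
  set c : Bx (-(L' : ℤ)) L' → ℝ := fun j => ip (-(L' : ℤ)) L' (φ j) ψ with hcd
  have hcsum : ∑ j, c j ^ 2 = 1 := by
    rw [← hnorm, basis_parseval ho hc hsup]
  have hrsum : ∑ j, (e j - E) ^ 2 * c j ^ 2 ≤ 2 * τ ^ 2 := by
    rw [← resid he ho hc hsup E, hres]; exact hresle
  -- a close eigenvalue
  obtain ⟨j₀, hj₀⟩ : ∃ j, (e j - E) ^ 2 ≤ 2 * τ ^ 2 := by
    by_contra h
    push Not at h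
    obtain ⟨j, _, hj0⟩ : ∃ j ∈ Finset.univ, 0 < c j ^ 2 := by
      by_contra h'
      push Not at h'
      have := Finset.sum_nonpos h'
      rw [hcsum] at this
      norm_num at this
    have h2 : ∑ j, 2 * τ ^ 2 * c j ^ 2 < ∑ j, (e j - E) ^ 2 * c j ^ 2 :=
      Finset.sum_lt_sum (fun j _ => mul_le_mul_of_nonneg_right (h j).le (sq_nonneg _))
        ⟨j, Finset.mem_univ j, mul_lt_mul_of_pos_right (h j) hj0⟩
    rw [← Finset.mul_sum, hcsum, mul_one] at h2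
    linarith
  have hj₀' : |e j₀ - E| ≤ 3 / 2 * τ := by
    have h94 : (e j₀ - E) ^ 2 ≤ (3 / 2 * τ) ^ 2 := by nlinarith [sq_nonneg τ]
    exact abs_le_of_sq_le_sq h94 (by positivity)
  -- the other eigenvalues are far
  have hfar : ∀ j, j ≠ j₀ → (5 / 8 * d) ^ 2 ≤ (e j - E) ^ 2 := by
    intro j hj
    have hne : e j ≠ e j₀ := simple (he j) (he j₀) (by rw [ho, if_neg hj])
    have hgap : d < |e j - e j₀| := by
      by_contra h
      push Not at h
      exact hB ⟨e j, φ j, e j₀, φ j₀, he j, he j₀, hne, h⟩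
    have h1 : |e j - e j₀| ≤ |e j - E| + |e j₀ - E| := by
      have := abs_sub_le (e j) E (e j₀)
      rw [abs_sub_comm E (e j₀)] at this
      exact this
    have h2 : 5 / 8 * d ≤ |e j - E| := by linarith
    rw [← sq_abs (e j - E)]
    exact pow_le_pow_left₀ (by positivity) h2 2
  have hrest : ∑ j ∈ Finset.univ.erase j₀, c j ^ 2 ≤ 2 * τ ^ 2 / (5 / 8 * d) ^ 2 := by
    rw [le_div_iff₀ (by positivity), Finset.sum_mul]
    refine le_trans ?_ hrsum
    rw [← Finset.add_sum_erase _ _ (Finset.mem_univ j₀)]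
    refine le_trans (Finset.sum_le_sum (f := fun j => c j ^ 2 * (5 / 8 * d) ^ 2)
      (g := fun j => (e j - E) ^ 2 * c j ^ 2) ?_) ?_
    · intro j hj
      rw [mul_comm]
      exact mul_le_mul_of_nonneg_right (hfar j (Finset.ne_of_mem_erase hj)) (sq_nonneg _)
    · have := mul_nonneg (sq_nonneg (e j₀ - E)) (sq_nonneg (c j₀))
      linarith
  have hc0 : 1 - c j₀ ^ 2 = ∑ j ∈ Finset.univ.erase j₀, c j ^ 2 := by
    rw [← hcsum, ← Finset.add_sum_erase _ _ (Finset.mem_univ j₀)]; ring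
  -- the sign
  obtain ⟨s, hs, hsc⟩ : ∃ s : ℝ, s ^ 2 = 1 ∧ s * c j₀ = |c j₀| := by
    rcases le_total 0 (c j₀) with h | h
    · exact ⟨1, by norm_num, by rw [abs_of_nonneg h]; ring⟩
    · exact ⟨-1, by norm_num, by rw [abs_of_nonpos h]; ring⟩
  refine ⟨e j₀, fun n => s * φ j₀ n, ⟨?_, ?_, ?_⟩, by linarith, ?_⟩
  · intro n hn
    beta_reduce
    rw [(he j₀).1 n hn, mul_zero]
  · have := (he j₀).2.1
    unfold nsq at this ⊢
    rw [← this]
    exact Finset.sum_congr rfl fun n _ => by rw [mul_pow, hs, one_mul]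
  · intro n h1 h2
    have := (he j₀).2.2 n h1 h2
    linear_combination s * this
  · have h1 : ∑ n ∈ Finset.Icc (-(L' : ℤ)) L', (ψ n - s * φ j₀ n) ^ 2 = 2 - 2 * |c j₀| := by
      have : ∑ n ∈ Finset.Icc (-(L' : ℤ)) L', (ψ n - s * φ j₀ n) ^ 2 =
          nsq (-(L' : ℤ)) L' ψ - 2 * s * ip (-(L' : ℤ)) L' (φ j₀) ψ +
            s ^ 2 * nsq (-(L' : ℤ)) L' (φ j₀) := by
        unfold nsq ip
        rw [Finset.mul_sum, Finset.mul_sum, ← Finset.sum_sub_distrib, ← Finset.sum_add_distrib]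
        exact Finset.sum_congr rfl fun n _ => by ring
      rw [this, hnorm, (he j₀).2.1, hs]
      have : ip (-(L' : ℤ)) L' (φ j₀) ψ = c j₀ := rfl
      rw [this]
      linarith
    rw [h1]
    have hc1 : |c j₀| ≤ 1 := by
      have h0 : c j₀ ^ 2 ≤ 1 := by
        have : 0 ≤ ∑ j ∈ Finset.univ.erase j₀, c j ^ 2 := Finset.sum_nonneg fun _ _ => sq_nonneg _
        linarith
      exact abs_le_one_iff_mul_self_le_one.2 (by nlinarith)
    have h2 : 2 - 2 * |c j₀| ≤ 2 * (1 - c j₀ ^ 2) := by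
      rw [← sq_abs (c j₀)]
      nlinarith [abs_nonneg (c j₀)]
    have h3 : 2 * (1 - c j₀ ^ 2) ≤ 2 * (2 * τ ^ 2 / (5 / 8 * d) ^ 2) := by
      rw [hc0]; linarith
    refine le_trans h2 (le_trans h3 ?_)
    have h4 : 2 * (2 * τ ^ 2 / (5 / 8 * d) ^ 2) = (256 / 25) * (τ ^ 2 / d ^ 2) := by
      field_simp; norm_num
    have h5 : (4 * τ / d) ^ 2 = 16 * (τ ^ 2 / d ^ 2) := by ring
    rw [h4, h5]
    have : 0 ≤ τ ^ 2 / d ^ 2 := by positivity
    linarith

end Run7.h100.PP
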